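import Pool.Agent.W528.Odd.Stms2

/-!
# Project OT: XDICH
-/

set_option autoImplicit false

namespace Pool.Agent.W540.OT.XDich

open Module

variable {K : Type} [Field K] [CharZero K] {V : Type} [AddCommGroup V] [Module K V]
  [FiniteDimensional K V]

lemma core (𝔮 𝔨 𝔨' : Submodule K (Module.End K V)) (hsup : 𝔨 ⊔ 𝔨' = 𝔮)
    (h4 : ∀ x ∈ 𝔨, ∀ y ∈ 𝔨', x * y = 0 → x = 0 ∨ y = 0)
    (h5 : ∀ x ∈ 𝔨, ∀ y ∈ 𝔨', LinearMap.trace K V (x * y) = 0)
    (h6 : ∀ y ∈ 𝔮, (∀ z ∈ 𝔮, LinearMap.trace K V (y * z) = 0) → y = 0)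
    (P Q : Module.End K V) (hQP : Q * P = 0) (h1 : ∀ y ∈ 𝔨, P * y * Q ∈ 𝔨)
    (h2 : ∀ y ∈ 𝔨, Q * y * P ∈ 𝔨) (u : Module.End K V) (hu : P * u * Q ∈ 𝔨')
    (hu0 : P * u * Q ≠ 0) : ∀ y ∈ 𝔨, P * y * Q = 0 ∧ Q * y * P = 0 := by
  have hz : ∀ y ∈ 𝔨, P * y * Q = 0 := by
    intro y hy
    rcases h4 _ (h1 y hy) _ hu (by
      have : P * y * Q * (P * u * Q) = P * y * (Q * P) * (u * Q) := by noncomm_ring
      rw [this, hQP, mul_zero, zero_mul]) with h | h
    · exact h
    · exact absurd h hu0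
  intro y hy
  refine ⟨hz y hy, h6 _ ?_ ?_⟩
  · rw [← hsup]
    exact Submodule.mem_sup_left (h2 y hy)
  · intro z hzq
    rw [← hsup] at hzq
    obtain ⟨z1, hz1, z2, hz2, rfl⟩ := Submodule.mem_sup.1 hzq
    rw [mul_add, map_add, h5 _ (h2 y hy) z2 hz2, add_zero]
    have e1 : Q * y * P * z1 = Q * (y * (P * z1)) := by noncomm_ring
    rw [e1, LinearMap.trace_mul_comm]
    have e2 : y * (P * z1) * Q = y * (P * z1 * Q) := by noncomm_ring
    rw [e2, hz z1 hz1, mul_zero, map_zero]

theorem main : Pool.Agent.W528.Odd.XDich := by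
  intro K _ _ V _ _ _ 𝔮 𝔨 𝔨' hsup hk hk' h4 h5 h6 X hX hX2
  set p : Module.End K V := X + (1 / 2 : K) • 1 with hp
  set q : Module.End K V := (1 / 2 : K) • 1 - X with hq
  have hXp : X = p - (1 / 2 : K) • 1 := by rw [hp]; abel
  have hpq0 : p * q = 0 := by
    rw [hp, hq, add_mul, mul_sub, mul_sub, smul_mul_assoc, one_mul, smul_mul_assoc, one_mul,
      mul_smul_comm, mul_one, hX2, smul_smul]
    norm_num
  have hqp0 : q * p = 0 := by
    rw [hp, hq, sub_mul, mul_add, mul_add, smul_mul_assoc, one_mul, smul_mul_assoc, one_mul,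
      mul_smul_comm, mul_one, hX2, smul_smul]
    norm_num
    rw [add_comm]
    exact sub_self _
  have hadd : p + q = 1 := by
    have e : X + (1 / 2 : K) • (1 : Module.End K V) + ((1 / 2 : K) • 1 - X) =
        (1 / 2 : K) • (1 : Module.End K V) + (1 / 2 : K) • 1 := by abel
    rw [hp, hq, e, ← add_smul]
    norm_num
  have hbr : ∀ y : Module.End K V, X * y - y * X = p * y * q - q * y * p := by
    intro y
    have e1 : p * y = p * y * p + p * y * q := by rw [← mul_add, hadd, mul_one]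
    have e2 : y * p = p * y * p + q * y * p := by
      rw [mul_assoc, mul_assoc, ← add_mul, hadd, one_mul]
    have e3 : X * y - y * X = p * y - y * p := by
      rw [hXp, sub_mul, mul_sub, smul_mul_assoc, one_mul, mul_smul_comm, mul_one]
      abel
    rw [e3]
    nth_rewrite 1 [e1]
    nth_rewrite 1 [e2]
    abel
  have hpp : p * p = p := by
    have := congrArg (fun t => p * t) hadd
    simp only [mul_add, hpq0, add_zero, mul_one] at this
    exact this
  have hqq : q * q = q := by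
    have := congrArg (fun t => q * t) hadd
    simp only [mul_add, hqp0, zero_add, mul_one] at this
    exact this
  have hbr2 : ∀ y : Module.End K V, X * (X * y - y * X) - (X * y - y * X) * X =
      p * y * q + q * y * p := by
    intro y
    rw [hbr (X * y - y * X), hbr y]
    have e1 : p * (p * y * q - q * y * p) * q = (p * p) * y * (q * q) - (p * q) * y * (p * q) := by
      noncomm_ring
    have e2 : q * (p * y * q - q * y * p) * p = (q * p) * y * (q * p) - (q * q) * y * (p * p) := by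
      noncomm_ring
    rw [e1, e2, hpp, hqq, hpq0, hqp0]
    simp
  have hideal : ∀ 𝔧 : Submodule K (Module.End K V),
      (∀ x ∈ 𝔮, ∀ y ∈ 𝔧, x * y - y * x ∈ 𝔧) → ∀ y ∈ 𝔧, p * y * q ∈ 𝔧 ∧ q * y * p ∈ 𝔧 := by
    intro 𝔧 hj y hy
    have m1 := hj X hX y hy
    have m2 := hj X hX _ m1
    rw [hbr2] at m2
    rw [hbr] at m1
    have m3 := 𝔧.smul_mem (1 / 2 : K) (𝔧.add_mem m2 m1)
    have m4 := 𝔧.smul_mem (1 / 2 : K) (𝔧.sub_mem m2 m1)
    have e1 : (1 / 2 : K) • (p * y * q + q * y * p + (p * y * q - q * y * p)) = p * y * q := by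
      have : p * y * q + q * y * p + (p * y * q - q * y * p) = (2 : K) • (p * y * q) := by
        rw [two_smul]; abel
      rw [this, smul_smul]
      norm_num
    have e2 : (1 / 2 : K) • (p * y * q + q * y * p - (p * y * q - q * y * p)) = q * y * p := by
      have : p * y * q + q * y * p - (p * y * q - q * y * p) = (2 : K) • (q * y * p) := by
        rw [two_smul]; abel
      rw [this, smul_smul]
      norm_num
    rw [e1] at m3
    rw [e2] at m4
    exact ⟨m3, m4⟩
  by_cases hc : ∀ y ∈ 𝔨', X * y = y * X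
  · exact Or.inr hc
  · left
    push Not at hc
    obtain ⟨u, hu, hne⟩ := hc
    have hcomm : ∀ y : Module.End K V, p * y * q = 0 → q * y * p = 0 → X * y = y * X := by
      intro y h1 h2
      have := hbr y
      rw [h1, h2, sub_zero] at this
      exact sub_eq_zero.1 this
    by_cases h1 : p * u * q = 0
    · have h2 : q * u * p ≠ 0 := fun h2 => hne (hcomm u h1 h2)
      have := core 𝔮 𝔨 𝔨' hsup h4 h5 h6 q p hpq0 (fun y hy => (hideal 𝔨 hk y hy).2)
        (fun y hy => (hideal 𝔨 hk y hy).1) u (hideal 𝔨' hk' u hu).2 h2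
      exact fun y hy => hcomm y (this y hy).2 (this y hy).1
    · have := core 𝔮 𝔨 𝔨' hsup h4 h5 h6 p q hqp0 (fun y hy => (hideal 𝔨 hk y hy).1)
        (fun y hy => (hideal 𝔨 hk y hy).2) u (hideal 𝔨' hk' u hu).1 h1
      exact fun y hy => hcomm y (this y hy).1 (this y hy).2

end Pool.Agent.W540.OT.XDich
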